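import Pool.Agent.H.MP_0955de_an.A

namespace Pool.Agent.Results.MP_0955de_an.Holds

open Complex Finset Pool.Agent.H.MP_0955de_an

/-- The solution of the periodic beam equation with finitely many nonzero coefficients `c_k^±`. -/
noncomputable def u (cp cm : ℤ →₀ ℂ) (t x : ℝ) : ℂ :=
  cp 0 + cm 0 * t + ∑ k ∈ (cp.support ∪ cm.support).erase 0,
    (cp k * exp (I * k ^ 2 * t) + cm k * exp (-I * k ^ 2 * t)) * exp (I * k * x)

theorem fr_inj {a : ℝ} (ha : ∀ n : ℤ, a ≠ n) (b : Bool) : Function.Injective (fr a b) := by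
  intro k l h
  by_contra hkl
  have h1 : (k : ℝ) - l ≠ 0 := sub_ne_zero.2 (by exact_mod_cast hkl)
  cases b <;> simp only [fr] at h <;> simp at h
  · exact ha (-(k + l)) (mul_left_cancel₀ h1 (by push_cast; linarith))
  · exact ha (k + l) (mul_left_cancel₀ h1 (by push_cast; linarith))

theorem fib {f : ℤ → ℝ} (hf : Function.Injective f) (s : Finset ℤ) (S : Finset ℝ)
    (hS : ∀ k ∈ s, f k ∈ S) (w : ℝ → ℝ) (P : ℤ → ℂ) :
    ∑ l ∈ S, w l * ‖∑ k ∈ s with f k = l, P k‖ ^ 2 = ∑ k ∈ s, w (f k) * ‖P k‖ ^ 2 := by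
  rw [← sum_fiberwise_of_maps_to hS]
  refine sum_congr rfl fun l _ => ?_
  rcases (s.filter (f · = l)).eq_empty_or_nonempty with h | ⟨k, hk⟩
  · simp [h]
  · have : s.filter (f · = l) = {k} := eq_singleton_iff_unique_mem.2 ⟨hk, fun j hj =>
      hf ((mem_filter.1 hj).2.trans (mem_filter.1 hk).2.symm)⟩
    rw [this, sum_singleton, sum_singleton, (mem_filter.1 hk).2]

theorem seg {a : ℝ} (ha : ∀ n : ℤ, a ≠ n) {T : ℝ} (hT : 0 < T) (w : ℝ → ℝ) (R : ℝ)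
    (hw : ∀ l, |w l| ≤ R) : ∃ C, 0 ≤ C ∧ ∀ (s : Finset ℤ) (P M : ℤ → ℂ) (m : ℂ) (v : ℝ → ℂ),
      (∀ t, v t = m * t + ∑ k ∈ s, (P k * e (fr a true k) t + M k * e (fr a false k) t)) →
      ‖m‖ ^ 2 + ∑ k ∈ s, (w (fr a true k) * ‖P k‖ ^ 2 - w (fr a false k) * ‖M k‖ ^ 2) ≤
        C * N T v + 1 / 8 * ∑ k ∈ s, (‖P k‖ ^ 2 + ‖M k‖ ^ 2) := by
  obtain ⟨C, C0, hC⟩ := lowt (Λ := Set.range fun i : Bool × ℤ => fr a i.1 i.2)
    ⟨(true, 0), by simp [fr]⟩ (fun T hT => lowfr a ha hT) hT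
  refine ⟨(1 + 4 * R ^ 2) * C, by positivity, fun s P M m v hv => ?_⟩
  set S := s.image (fr a true) ∪ s.image (fr a false) with hS
  have s1 : ∀ k ∈ s, fr a true k ∈ S := fun k hk => mem_union_left _ (mem_image_of_mem _ hk)
  have s2 : ∀ k ∈ s, fr a false k ∈ S := fun k hk => mem_union_right _ (mem_image_of_mem _ hk)
  set p : ℝ → ℂ := fun l => ∑ k ∈ s with fr a true k = l, P k with hp
  set q : ℝ → ℂ := fun l => ∑ k ∈ s with fr a false k = l, M k with hq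
  have h1 := hC S (fun l hl => by
    rcases mem_union.1 hl with h | h <;> obtain ⟨k, -, rfl⟩ := mem_image.1 h
    exacts [⟨(true, k), rfl⟩, ⟨(false, k), rfl⟩]) (fun l => p l + q l) m
  have h2 : (fun t : ℝ => m * t + ∑ l ∈ S, (p l + q l) * e l t) = v := by
    ext t
    rw [hv, sum_add_distrib, ← sum_fiberwise_of_maps_to s1, ← sum_fiberwise_of_maps_to s2,
      ← sum_add_distrib]
    congr 1
    refine sum_congr rfl fun l _ => ?_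
    rw [add_mul, sum_mul, sum_mul]
    congr 1 <;> exact sum_congr rfl fun k hk => by rw [(mem_filter.1 hk).2]
  have h3 : ∑ l ∈ S, (w l * ‖p l‖ ^ 2 - w l * ‖q l‖ ^ 2) ≤
      ∑ l ∈ S, (4 * R ^ 2 * ‖p l + q l‖ ^ 2 + 1 / 8 * (1 * ‖p l‖ ^ 2 + 1 * ‖q l‖ ^ 2)) :=
    sum_le_sum fun l _ => by
      have b1 : |‖p l‖ - ‖q l‖| ≤ ‖p l + q l‖ := by
        simpa using abs_norm_sub_norm_le (p l) (-q l)
      have b2 : w l * (‖p l‖ - ‖q l‖) ≤ R * ‖p l + q l‖ := (le_abs_self _).trans (by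
        rw [abs_mul]; exact mul_le_mul (hw l) b1 (abs_nonneg _) ((abs_nonneg _).trans (hw l)))
      nlinarith [mul_le_mul_of_nonneg_right b2 (add_nonneg (norm_nonneg (p l)) (norm_nonneg (q l))),
        sq_nonneg (8 * R * ‖p l + q l‖ - (‖p l‖ + ‖q l‖)), sq_nonneg (‖p l‖ - ‖q l‖)]
  rw [h2] at h1
  simp only [sum_sub_distrib, sum_add_distrib, ← mul_sum, mul_add] at h3 ⊢
  rw [fib (fr_inj ha _) s S s1, fib (fr_inj ha _) s S s2] at h3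
  have f1 := fib (fr_inj ha _) s S s1 (fun _ => 1) P
  have f2 := fib (fr_inj ha _) s S s2 (fun _ => 1) M
  simp only [one_mul] at f1 f2 h3
  rw [f1, f2] at h3
  have : 0 ≤ ∑ l ∈ S, ‖p l + q l‖ ^ 2 := by positivity
  nlinarith [mul_le_mul_of_nonneg_left h1 (show 0 ≤ 4 * R ^ 2 by positivity),
    mul_nonneg (sq_nonneg R) (sq_nonneg ‖m‖)]

noncomputable def W (α R Q l : ℝ) : ℝ :=
  if l = 0 then 1 else if |l| ≤ R then α * l else if 0 < l then Q else -Q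

theorem W_le {α R Q : ℝ} (h1 : 1 ≤ Q) (h2 : |α| * R ≤ Q) (l : ℝ) : |W α R Q l| ≤ Q := by
  unfold W
  split_ifs with a b c
  · simpa using h1
  · rw [abs_mul]; exact (mul_le_mul_of_nonneg_left b (abs_nonneg _)).trans h2
  · rw [abs_of_nonneg (by linarith)]
  · rw [abs_neg, abs_of_nonneg (by linarith)]

theorem W_neg (α R Q : ℝ) {l : ℝ} (h : l ≠ 0) : W α R Q (-l) = -W α R Q l := by
  unfold W
  rw [if_neg h, if_neg (neg_ne_zero.2 h), abs_neg]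
  split_ifs with a b c c
  · ring
  · linarith
  · ring
  · ring
  · exact absurd (by linarith) h

theorem W_add {α β R x y : ℝ} (hx : x ≠ 0) (hy : y ≠ 0) (hx' : -R ≤ x) (hy' : -R ≤ y)
    (h : 1 ≤ α * x + β * y) (R0 : 0 ≤ R) :
    1 ≤ W α R ((|α| + |β|) * R + 1) x + W β R ((|α| + |β|) * R + 1) y := by
  have a0 := mul_nonneg (abs_nonneg α) R0
  have b0 := mul_nonneg (abs_nonneg β) R0
  have k : ∀ γ z : ℝ, |z| ≤ R → -(|γ| * R) ≤ γ * z := fun γ z hz => by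
    have := mul_le_mul_of_nonneg_left hz (abs_nonneg γ)
    rw [← abs_mul] at this
    linarith [neg_abs_le (γ * z)]
  have p : ∀ z : ℝ, -R ≤ z → ¬|z| ≤ R → 0 < z := fun z h1 h2 => by
    by_contra h3
    exact h2 (abs_le.2 ⟨h1, by linarith⟩)
  unfold W
  rw [if_neg hx, if_neg hy]
  by_cases h1 : |x| ≤ R <;> by_cases h2 : |y| ≤ R
  · rwa [if_pos h1, if_pos h2]
  · rw [if_pos h1, if_neg h2, if_pos (p y hy' h2)]; linarith [k α x h1]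
  · rw [if_neg h1, if_pos h2, if_pos (p x hx' h1)]; linarith [k β y h2]
  · rw [if_neg h1, if_neg h2, if_pos (p x hx' h1), if_pos (p y hy' h2)]; linarith

theorem seg2 {a : ℝ} (ha : ∀ n : ℤ, a ≠ n) {T : ℝ} (hT : 0 < T) (w : ℝ → ℝ) (R : ℝ)
    (hw : ∀ l, |w l| ≤ R) (w0 : w 0 = 1) (t₀ x₀ : ℝ) : ∃ C, 0 ≤ C ∧ ∀ cp cm : ℤ →₀ ℂ,
      ‖cm 0‖ ^ 2 + 7 / 8 * ‖cp 0 + cm 0 * t₀‖ ^ 2 + ∑ k ∈ (cp.support ∪ cm.support).erase 0,
        (w (fr a true k) * ‖cp k‖ ^ 2 - w (fr a false k) * ‖cm k‖ ^ 2) ≤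
      C * N T (fun t => u cp cm (t₀ + t) (x₀ - a * t)) +
        1 / 8 * ∑ k ∈ (cp.support ∪ cm.support).erase 0, (‖cp k‖ ^ 2 + ‖cm k‖ ^ 2) := by
  obtain ⟨C, C0, hC⟩ := seg ha hT w R hw
  refine ⟨C, C0, fun cp cm => ?_⟩
  set s := (cp.support ∪ cm.support).erase 0 with hs
  have s0 : 0 ∉ s := by simp [hs]
  have ne : ∀ k ∈ s, k ≠ 0 := fun k hk => (mem_erase.1 hk).1
  have := hC (insert 0 s) (fun k => if k = 0 then cp 0 + cm 0 * t₀ else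
      cp k * e (k ^ 2 * t₀ + k * x₀) 1)
    (fun k => if k = 0 then 0 else cm k * e (-k ^ 2 * t₀ + k * x₀) 1) (cm 0)
    (fun t => u cp cm (t₀ + t) (x₀ - a * t)) fun t => by
      rw [sum_insert s0, u, ← hs, sum_congr rfl fun k hk => ?_]
      · simp [fr, e]; ring
      · simp only [if_neg (ne k hk), e, fr, add_mul, mul_assoc, ← exp_add]
        congr 3 <;> simp <;> ring
  rw [sum_insert s0, sum_insert s0] at this
  have e1 : ∀ k ∈ s, ‖if k = 0 then cp 0 + cm 0 * t₀ else cp k * e (k ^ 2 * t₀ + k * x₀) 1‖ =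
      ‖cp k‖ := fun k hk => by simp [ne k hk, e_norm]
  have e2 : ∀ k ∈ s, ‖if k = 0 then 0 else cm k * e (-k ^ 2 * t₀ + k * x₀) 1‖ =
      ‖cm k‖ := fun k hk => by simp [ne k hk, e_norm]
  rw [sum_congr rfl fun k hk => by rw [e1 k hk, e2 k hk]] at this
  conv_rhs at this => rw [sum_congr rfl fun k hk => by rw [e1 k hk, e2 k hk]]
  simp only [if_true, show fr a true 0 = 0 by simp [fr], w0, norm_zero] at this
  linarith

theorem result (a₁ a₂ : ℝ) (h₁ : ∀ n : ℤ, a₁ ≠ n) (h₂ : ∀ n : ℤ, a₂ ≠ n) (h : a₁ ≠ a₂)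
    (t₁ x₁ t₂ x₂ T : ℝ) (hT : 0 < T) : ∃ C : ℝ, ∀ cp cm : ℤ →₀ ℂ,
      ∑ k ∈ cp.support ∪ cm.support, (‖cp k‖ ^ 2 + ‖cm k‖ ^ 2) ≤
        C * ∫ t in (0 : ℝ)..T, (‖u cp cm (t₁ + t) (x₁ - a₁ * t)‖ ^ 2 +
          ‖u cp cm (t₂ + t) (x₂ - a₂ * t)‖ ^ 2) := by
  have d0 : a₂ - a₁ ≠ 0 := sub_ne_zero.2 h.symm
  set α := a₂ / (a₂ - a₁) with hα
  set β := -a₁ / (a₂ - a₁) with hβ
  set R := a₁ ^ 2 + a₂ ^ 2 with hR
  have R0 : 0 ≤ R := by positivity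
  have a0 := mul_nonneg (abs_nonneg α) R0
  have b0 := mul_nonneg (abs_nonneg β) R0
  obtain ⟨C, C0, hC⟩ := seg2 h₁ hT (W α R ((|α| + |β|) * R + 1)) _
    (W_le (by linarith) (by linarith)) (by simp [W]) t₁ x₁
  obtain ⟨D, D0, hD⟩ := seg2 h₂ hT (W β R ((|α| + |β|) * R + 1)) _
    (W_le (by linarith) (by linarith)) (by simp [W]) t₂ x₂
  have key : ∀ k : ℤ, k ≠ 0 → 1 ≤ W α R ((|α| + |β|) * R + 1) (fr a₁ true k) +
      W β R ((|α| + |β|) * R + 1) (fr a₂ true k) := fun k hk => by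
    refine W_add (fun e => hk (fr_inj h₁ true (by simpa [fr] using e)))
      (fun e => hk (fr_inj h₂ true (by simpa [fr] using e))) ?_ ?_ ?_ R0
    · simp only [fr, if_true]; nlinarith [sq_nonneg (k - a₁ / 2), sq_nonneg a₁, sq_nonneg a₂]
    · simp only [fr, if_true]; nlinarith [sq_nonneg (k - a₂ / 2), sq_nonneg a₁, sq_nonneg a₂]
    · have : α * fr a₁ true k + β * fr a₂ true k = k ^ 2 := by
        simp only [fr, if_true, hα, hβ]; field_simp; ring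
      rw [this]
      exact_mod_cast (one_le_sq_iff_one_le_abs k).2 (Int.one_le_abs hk)
  have neg : ∀ a γ Q : ℝ, (∀ n : ℤ, a ≠ n) → ∀ k : ℤ, k ≠ 0 →
      W γ R Q (fr a false k) = -W γ R Q (fr a true (-k)) := fun a γ Q ha k hk => by
    rw [← W_neg _ _ _ fun e => neg_ne_zero.2 hk (fr_inj ha true (by simpa [fr] using e))]
    congr 1
    simp [fr]; ring
  refine ⟨(3 + 2 * t₁ ^ 2) * (C + D), fun cp cm => ?_⟩
  have c1 := hC cp cm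
  have c2 := hD cp cm
  set s := (cp.support ∪ cm.support).erase 0 with hs
  have c3 : ∑ k ∈ s, (‖cp k‖ ^ 2 + ‖cm k‖ ^ 2) ≤
      ∑ k ∈ s, (W α R ((|α| + |β|) * R + 1) (fr a₁ true k) * ‖cp k‖ ^ 2 -
      W α R ((|α| + |β|) * R + 1) (fr a₁ false k) * ‖cm k‖ ^ 2) +
      ∑ k ∈ s, (W β R ((|α| + |β|) * R + 1) (fr a₂ true k) * ‖cp k‖ ^ 2 -
      W β R ((|α| + |β|) * R + 1) (fr a₂ false k) * ‖cm k‖ ^ 2) := by
    rw [← sum_add_distrib]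
    refine sum_le_sum fun k hk => ?_
    have k0 := (mem_erase.1 hk).1
    rw [neg _ _ _ h₁ k k0, neg _ _ _ h₂ k k0]
    nlinarith [mul_le_mul_of_nonneg_right (key k k0) (sq_nonneg ‖cp k‖),
      mul_le_mul_of_nonneg_right (key _ (neg_ne_zero.2 k0)) (sq_nonneg ‖cm k‖)]
  have c4 : ∑ k ∈ cp.support ∪ cm.support, (‖cp k‖ ^ 2 + ‖cm k‖ ^ 2) ≤
      ‖cp 0‖ ^ 2 + ‖cm 0‖ ^ 2 + ∑ k ∈ s, (‖cp k‖ ^ 2 + ‖cm k‖ ^ 2) := by
    rw [← sum_insert (f := fun k => ‖cp k‖ ^ 2 + ‖cm k‖ ^ 2) (show 0 ∉ s by simp [hs])]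
    exact sum_le_sum_of_subset_of_nonneg (subset_insert_iff.2 subset_rfl) fun _ _ _ => by positivity
  have c5 : ‖cp 0‖ ^ 2 ≤ 2 * ‖cp 0 + cm 0 * t₁‖ ^ 2 + 2 * t₁ ^ 2 * ‖cm 0‖ ^ 2 := by
    have := norm_sub_le (cp 0 + cm 0 * t₁) (cm 0 * t₁)
    rw [add_sub_cancel_right, norm_mul, norm_real, Real.norm_eq_abs] at this
    rw [← sq_abs t₁]
    nlinarith [norm_nonneg (cp 0), sq_nonneg (‖cp 0 + cm 0 * t₁‖ - ‖cm 0‖ * |t₁|)]
  have uc : ∀ a t₀ x₀ : ℝ, Continuous fun t : ℝ => ‖u cp cm (t₀ + t) (x₀ - a * t)‖ ^ 2 :=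
    fun _ _ _ => by unfold u; fun_prop
  rw [intervalIntegral.integral_add ((uc _ _ _).intervalIntegrable _ _)
    ((uc _ _ _).intervalIntegrable _ _)]
  have n1 := N_nonneg hT.le fun t => u cp cm (t₁ + t) (x₁ - a₁ * t)
  have n2 := N_nonneg hT.le fun t => u cp cm (t₂ + t) (x₂ - a₂ * t)
  simp only [N] at c1 c2 n1 n2
  generalize ∫ t in (0 : ℝ)..T, ‖u cp cm (t₁ + t) (x₁ - a₁ * t)‖ ^ 2 = A at *
  generalize ∫ t in (0 : ℝ)..T, ‖u cp cm (t₂ + t) (x₂ - a₂ * t)‖ ^ 2 = B at *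
  have y0 : 0 ≤ ∑ k ∈ s, (‖cp k‖ ^ 2 + ‖cm k‖ ^ 2) := by positivity
  have c6 : ‖cm 0‖ ^ 2 + 3 / 4 * ‖cp 0 + cm 0 * t₁‖ ^ 2 +
      3 / 4 * ∑ k ∈ s, (‖cp k‖ ^ 2 + ‖cm k‖ ^ 2) ≤ (C + D) * (A + B) := by
    nlinarith [mul_nonneg C0 n2, mul_nonneg D0 n1, sq_nonneg ‖cm 0‖, sq_nonneg ‖cp 0 + cm 0 * t₁‖,
      sq_nonneg ‖cp 0 + cm 0 * t₂‖]
  nlinarith [mul_le_mul_of_nonneg_left c6 (show 0 ≤ 3 + 2 * t₁ ^ 2 by positivity),
    mul_nonneg (sq_nonneg t₁) y0, mul_nonneg (sq_nonneg t₁) (sq_nonneg ‖cp 0 + cm 0 * t₁‖),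
    sq_nonneg ‖cm 0‖, sq_nonneg ‖cp 0 + cm 0 * t₁‖]

end Pool.Agent.Results.MP_0955de_an.Holds
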